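import Pool.Agent.Helper11.M3.Goals4b
import Pool.Agent.Helper61.PP.CEX3

/-!
# Project M3: packet X_EXN
-/

set_option autoImplicit false

namespace Pool.Agent.Helper46.M3

open Finset Pool.Agent.Helper17.PP Pool.Agent.Helper17.PP0 Pool.Agent.Helper17.PP2
  Pool.Agent.Helper61.PP Pool.Agent.Helper11.M3

theorem x_exn : X_EXN := by
  classical
  intro p _ B B₀ k U Λ C _ _ _ _ _ _ _ _ _ _ _ S ψ e N Y g K hyp ε hε
  have hK1 : (1 : ℝ) ≤ K := by exact_mod_cast hyp.one_le
  have hK0 : (0 : ℝ) < K := by linarith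
  -- choice of `s₀`
  obtain ⟨s₀, hs₀⟩ : ∃ s₀ : ℕ, 1 ≤ s₀ ∧ K * (K + Real.log (K / ε)) ≤ Real.log s₀ := by
    obtain ⟨n, hn⟩ := exists_nat_ge (Real.exp (K * (K + Real.log (K / ε))))
    have hn0 : (0 : ℝ) < n := (Real.exp_pos _).trans_le hn
    refine ⟨n, by exact_mod_cast hn0, ?_⟩
    rw [Real.le_log_iff_exp_le hn0]
    exact hn
  refine ⟨2 ^ (s₀ * s₀), fun X hX P => ?_⟩
  have hX1 : (1 : ℝ) ≤ X := le_trans (one_le_pow₀ (by norm_num)) hX
  have hX0 : (0 : ℝ) < X := by linarith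
  have hfl : 2 ^ (s₀ * s₀) ≤ ⌊X⌋₊ := Nat.le_floor (by exact_mod_cast hX)
  have hlg : s₀ * s₀ ≤ lg X := by
    unfold lg
    exact Nat.le_log_of_pow_le (by norm_num) hfl
  set L := lg X with hL
  set s := Nat.sqrt L with hs
  have hss : s₀ ≤ s := Nat.le_sqrt.2 hlg
  have hs1 : 1 ≤ s := hs₀.1.trans hss
  have hsL : s * s ≤ L := Nat.sqrt_le L
  have hsL' : s ≤ L := Nat.sqrt_le_self L
  have hg : 1 ≤ g X := hyp.g_one X
  set f : B → ℝ := fun q => if (N q ∧ s ≤ S.bl q) then 0 else 1 with hf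
  have hf0 : ∀ q, 0 ≤ f q := by
    intro q
    simp only [hf]
    split_ifs <;> norm_num
  have hf1 : ∀ q, f q ≤ 1 := by
    intro q
    simp only [hf]
    split_ifs <;> norm_num
  have hcard : (0 : ℝ) ≤ Fintype.card k := by positivity
  have h1 := hyp.ht f (fun q => ⟨hf0 q, (hf1 q).trans (by linarith)⟩) X hX0 P
  have h2 : ∑ b ∈ P.powerset with (∀ q ∈ b, N q → S.bl q < s), Real.exp (-(S.nm b / X)) ≤
      ∑ b ∈ P.powerset, (∏ q ∈ b, f q) * Real.exp (-(S.nm b / X)) := by
    rw [Finset.sum_filter]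
    apply Finset.sum_le_sum
    intro b _
    split_ifs with hb
    · have : ∏ q ∈ b, f q = 1 := by
        apply Finset.prod_eq_one
        intro q hq
        simp only [hf]
        rw [if_neg]
        rintro ⟨h3, h4⟩
        have := hb q hq h3
        omega
      rw [this, one_mul]
    · exact mul_nonneg (Finset.prod_nonneg fun q _ => hf0 q) (Real.exp_pos _).le
  have h3 : ∑ q ∈ S.upto X, (f q - 1) / S.N q ≤ -((1 / K : ℝ) * Real.log s - K) := by
    have e1 : ∑ q ∈ S.upto X, (f q - 1) / S.N q =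
        -∑ q ∈ S.upto X with (N q ∧ s ≤ S.bl q), (1 : ℝ) / S.N q := by
      rw [Finset.sum_filter, ← Finset.sum_neg_distrib]
      apply Finset.sum_congr rfl
      intro q _
      simp only [hf]
      split_ifs <;> ring
    rw [e1, neg_le_neg_iff]
    have e2 := hyp.merN s L hs1 hsL'
    have e3 : ∑ q ∈ S.below L with N q ∧ s ≤ S.bl q, (1 : ℝ) / S.N q ≤
        ∑ q ∈ S.upto X with (N q ∧ s ≤ S.bl q), (1 : ℝ) / S.N q := by
      apply Finset.sum_le_sum_of_subset_of_nonneg
      · exact Finset.filter_subset_filter _ (below_sub_upto S X hX1)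
      · intro q _ _
        positivity
    have hs0 : (0 : ℝ) < s := by exact_mod_cast hs1
    have e4 : Real.log s ≤ Real.log (L / s) := by
      apply Real.log_le_log hs0
      rw [le_div_iff₀ hs0]
      exact_mod_cast hsL
    have e5 : (1 / K : ℝ) * Real.log s ≤ (1 / K : ℝ) * Real.log (L / s) :=
      mul_le_mul_of_nonneg_left e4 (by positivity)
    linarith
  have h4 : Real.log s₀ ≤ Real.log s :=
    Real.log_le_log (by exact_mod_cast hs₀.1) (by exact_mod_cast hss)
  have h5 : -((1 / K : ℝ) * Real.log s - K) ≤ -Real.log (K / ε) := by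
    have e1 : K * (K + Real.log (K / ε)) ≤ Real.log s := hs₀.2.trans h4
    have e2 : (K : ℝ) + Real.log (K / ε) ≤ (1 / K : ℝ) * Real.log s := by
      rw [one_div, ← div_eq_inv_mul, le_div_iff₀ hK0]
      linarith
    linarith
  have h6 : Real.exp (∑ q ∈ S.upto X, (f q - 1) / S.N q) ≤ ε / K := by
    refine (Real.exp_le_exp.2 (h3.trans h5)).trans ?_
    rw [Real.exp_neg, Real.exp_log (by positivity), inv_div]
  have h7 : (K : ℝ) * (X * min 1 X * g X) ≤ K * (X * g X) := by
    apply mul_le_mul_of_nonneg_left _ hK0.le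
    rw [min_eq_left hX1, mul_one]
  calc ∑ b ∈ P.powerset with (∀ q ∈ b, N q → S.bl q < s), Real.exp (-(S.nm b / X))
      ≤ _ := h2
    _ ≤ _ := h1
    _ ≤ K * (X * g X) * (ε / K) := by
        apply mul_le_mul h7 h6 (Real.exp_pos _).le
        positivity
    _ = ε * (X * g X) := by
        field_simp

end Pool.Agent.Helper46.M3
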